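import Mathlib

set_option autoImplicit false

namespace Pool.Agent.H314.AH

variable {m : ℕ}

/-- the finite set `S` is not contained in an affine hyperplane -/
def Spans (S : Finset (Fin m → ℝ)) : Prop :=
  ∀ (l : (Fin m → ℝ) →ₗ[ℝ] ℝ) (c : ℝ), l ≠ 0 → ∃ s ∈ S, l s ≠ c

/-- the points of the finite set `C` are affinely independent -/
def Indep (C : Finset (Fin m → ℝ)) : Prop :=
  AffineIndependent ℝ (fun t : C => (t : Fin m → ℝ))

/-- `{x | l x = c}` is a hyperplane determined by `S`: `l` is a nonzero linear functional and the
hyperplane contains `m` affinely independent points of `S` (so it is their affine hull) -/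
def Determined (S : Finset (Fin m → ℝ)) (l : (Fin m → ℝ) →ₗ[ℝ] ℝ) (c : ℝ) : Prop :=
  l ≠ 0 ∧ ∃ T ⊆ S, T.card = m ∧ Indep T ∧ ∀ t ∈ T, l t = c

open Classical in
/-- `S` is admissible: on each side of every hyperplane determined by `S` there are at most
`[(n - 1) / m]` parallel hyperplanes through points of `S`, where `n = |S|` -/
def Admissible (S : Finset (Fin m → ℝ)) : Prop :=
  ∀ (l : (Fin m → ℝ) →ₗ[ℝ] ℝ) (c : ℝ), Determined S l c →
    ((S.filter fun s => c < l s).image l).card ≤ (S.card - 1) / m ∧
    ((S.filter fun s => l s < c).image l).card ≤ (S.card - 1) / m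

open Classical in
/-- `C` is a circuit: affinely dependent, and every set obtained from it by deleting one point is
affinely independent -/
def IsCircuit (C : Finset (Fin m → ℝ)) : Prop :=
  ¬ Indep C ∧ ∀ x ∈ C, Indep (C.erase x)

open Classical in
/-- `C` is the disjoint union of two sets with the same number of points and the same sum of points
(equivalently, the same centroid) -/
def Balanced (C : Finset (Fin m → ℝ)) : Prop :=
  ∃ A B : Finset (Fin m → ℝ), A ∪ B = C ∧ Disjoint A B ∧ A.card = B.card ∧
    ∑ x ∈ A, x = ∑ x ∈ B, x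

end Pool.Agent.H314.AH
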