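import Mathlib
import Pool.Agent.H314.AH.Def

set_option autoImplicit false

namespace Pool.Agent.H314.AH

open Classical Finset

variable {m : ℕ}

theorem indep_iff (C : Finset (Fin m → ℝ)) : Indep C ↔ ∀ w : (Fin m → ℝ) → ℝ,
    ∑ x ∈ C, w x = 0 → ∑ x ∈ C, w x • x = 0 → ∀ x ∈ C, w x = 0 := by
  unfold Indep
  rw [affineIndependent_iff]
  constructor
  · intro h w h0 h1 x hx
    exact h Finset.univ (fun t : C => w t) (by rw [← h0]; exact Finset.sum_coe_sort C w)
      (by rw [← h1]; exact Finset.sum_coe_sort C (fun x => w x • x)) ⟨x, hx⟩ (Finset.mem_univ _)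
  · intro h s w h0 h1 e he
    let w' : (Fin m → ℝ) → ℝ :=
      fun x => if hx : x ∈ C then (if (⟨x, hx⟩ : C) ∈ s then w ⟨x, hx⟩ else 0) else 0
    have hw' : ∀ t : C, w' (t : Fin m → ℝ) = if t ∈ s then w t else 0 := by
      intro t
      simp only [w', Finset.coe_mem, dif_pos, Subtype.coe_eta]
    have e0 : ∑ x ∈ C, w' x = 0 := by
      rw [← Finset.sum_coe_sort C w', ← h0]
      simp only [hw', Finset.sum_ite_mem, Finset.univ_inter]
    have e1 : ∑ x ∈ C, w' x • x = 0 := by
      rw [← Finset.sum_coe_sort C (fun x => w' x • x), ← h1]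
      simp only [hw', ite_smul, zero_smul, Finset.sum_ite_mem, Finset.univ_inter]
    have := h w' e0 e1 e e.2
    rw [hw', if_pos he] at this
    exact this

theorem dep_fun {U : Finset (Fin m → ℝ)} {w : (Fin m → ℝ) → ℝ} (h0 : ∑ x ∈ U, w x = 0)
    (h1 : ∑ x ∈ U, w x • x = 0) (l : (Fin m → ℝ) →ₗ[ℝ] ℝ) (c : ℝ) :
    ∑ x ∈ U, w x * (l x - c) = 0 := by
  have h2 : l (∑ x ∈ U, w x • x) = 0 := by rw [h1, map_zero]
  rw [map_sum] at h2
  simp only [map_smul, smul_eq_mul] at h2
  calc ∑ x ∈ U, w x * (l x - c) = ∑ x ∈ U, w x * l x - (∑ x ∈ U, w x) * c := by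
        rw [Finset.sum_mul, ← Finset.sum_sub_distrib]
        exact Finset.sum_congr rfl fun x _ => by ring
    _ = 0 := by rw [h2, h0]; ring

theorem indep_insert {T : Finset (Fin m → ℝ)} (hT : Indep T) {l : (Fin m → ℝ) →ₗ[ℝ] ℝ} {c : ℝ}
    (hl : ∀ t ∈ T, l t = c) {p : Fin m → ℝ} (hp : l p ≠ c) : Indep (insert p T) := by
  rw [indep_iff] at *
  intro w h0 h1
  have hpT : p ∉ T := fun h => hp (hl p h)
  have h2 := dep_fun h0 h1 l c
  rw [Finset.sum_insert hpT, Finset.sum_eq_zero (s := T) (fun x hx => by rw [hl x hx]; ring),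
    add_zero] at h2
  have hwp : w p = 0 := (mul_eq_zero.1 h2).resolve_right (sub_ne_zero.2 hp)
  rw [Finset.sum_insert hpT, hwp, zero_add] at h0
  rw [Finset.sum_insert hpT, hwp, zero_smul, zero_add] at h1
  intro x hx
  rcases Finset.mem_insert.1 hx with rfl | hx
  · exact hwp
  · exact hT w h0 h1 x hx

theorem same_value {S T : Finset (Fin m → ℝ)} (hbal : ∀ C ⊆ S, IsCircuit C → Balanced C)
    (hTS : T ⊆ S) (hTc : T.card = m) (hT : Indep T) {l : (Fin m → ℝ) →ₗ[ℝ] ℝ} {c : ℝ}
    (hl : ∀ t ∈ T, l t = c) {p q : Fin m → ℝ} (hp : p ∈ S) (hq : q ∈ S)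
    (hside : 0 < (l p - c) * (l q - c)) : l p = l q := by
  by_cases hpq : p = q
  · rw [hpq]
  have hpc : l p ≠ c := by
    intro h; rw [h, sub_self, zero_mul] at hside; exact lt_irrefl _ hside
  have hqc : l q ≠ c := by
    intro h; rw [h, sub_self, mul_zero] at hside; exact lt_irrefl _ hside
  have hpT : p ∉ T := fun h => hpc (hl p h)
  have hqT : q ∉ T := fun h => hqc (hl q h)
  have hIp := (indep_iff _).1 (indep_insert hT hl hpc)
  have hIq := (indep_iff _).1 (indep_insert hT hl hqc)
  have hqpT : q ∉ insert p T := by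
    rw [Finset.mem_insert, not_or]; exact ⟨fun h => hpq h.symm, hqT⟩
  have hpqT : p ∉ insert q T := by
    rw [Finset.mem_insert, not_or]; exact ⟨hpq, hpT⟩
  obtain ⟨U, hU⟩ : ∃ U, U = insert q (insert p T) := ⟨_, rfl⟩
  have hU' : U = insert p (insert q T) := by rw [hU, Finset.insert_comm]
  have hUc : U.card = m + 2 := by
    rw [hU, Finset.card_insert_of_notMem hqpT, Finset.card_insert_of_notMem hpT, hTc]
  have hUS : U ⊆ S := by
    rw [hU]; exact Finset.insert_subset hq (Finset.insert_subset hp hTS)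
  obtain ⟨f, f1, f0, x0, hx0, hfx0⟩ :=
    Module.exists_nontrivial_relation_sum_zero_of_finrank_succ_lt_card (R := ℝ)
      (M := Fin m → ℝ) (t := U) (by rw [hUc]; simp)
  have hqU : q ∈ U := by rw [hU]; exact Finset.mem_insert_self _ _
  have hpU : p ∈ U := by rw [hU']; exact Finset.mem_insert_self _ _
  have hfq : f q ≠ 0 := by
    intro h
    have a0 := f0
    have a1 := f1
    rw [hU, Finset.sum_insert hqpT, h, zero_add] at a0
    rw [hU, Finset.sum_insert hqpT, h, zero_smul, zero_add] at a1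
    have := hIp f a0 a1
    rw [hU, Finset.mem_insert] at hx0
    rcases hx0 with rfl | hx0
    · exact hfx0 h
    · exact hfx0 (this x0 hx0)
  have hfp : f p ≠ 0 := by
    intro h
    have a0 := f0
    have a1 := f1
    rw [hU', Finset.sum_insert hpqT, h, zero_add] at a0
    rw [hU', Finset.sum_insert hpqT, h, zero_smul, zero_add] at a1
    have := hIq f a0 a1
    rw [hU', Finset.mem_insert] at hx0
    rcases hx0 with rfl | hx0
    · exact hfx0 h
    · exact hfx0 (this x0 hx0)
  have huniq : ∀ e : (Fin m → ℝ) → ℝ, ∑ x ∈ U, e x = 0 → ∑ x ∈ U, e x • x = 0 →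
      ∀ x ∈ U, e x * f q = e q * f x := by
    intro e e0 e1 x hx
    let g : (Fin m → ℝ) → ℝ := fun x => f q * e x - e q * f x
    have hgq : g q = 0 := by simp only [g]; ring
    have g0 : ∑ x ∈ U, g x = 0 := by
      simp only [g]
      rw [Finset.sum_sub_distrib, ← Finset.mul_sum, ← Finset.mul_sum, e0, f0]; ring
    have g1 : ∑ x ∈ U, g x • x = 0 := by
      simp only [g, sub_smul, mul_smul]
      rw [Finset.sum_sub_distrib, ← Finset.smul_sum, ← Finset.smul_sum, e1, f1]; simp
    rw [hU, Finset.sum_insert hqpT, hgq, zero_add] at g0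
    rw [hU, Finset.sum_insert hqpT, hgq, zero_smul, zero_add] at g1
    have hg := hIp g g0 g1
    have hgx : g x = 0 := by
      rw [hU, Finset.mem_insert] at hx
      rcases hx with rfl | hx
      · exact hgq
      · exact hg x hx
    simp only [g] at hgx
    linarith
  obtain ⟨C, hC⟩ : ∃ C, C = U.filter (fun x => f x ≠ 0) := ⟨_, rfl⟩
  have hCU : C ⊆ U := by rw [hC]; exact Finset.filter_subset _ _
  have hCmem : ∀ x, x ∈ C ↔ x ∈ U ∧ f x ≠ 0 := by intro x; rw [hC, Finset.mem_filter]
  have hpC : p ∈ C := (hCmem p).2 ⟨hpU, hfp⟩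
  have hqC : q ∈ C := (hCmem q).2 ⟨hqU, hfq⟩
  have hCirc : IsCircuit C := by
    constructor
    · intro hI
      have s0 : ∑ x ∈ C, f x = 0 := by
        rw [← f0]
        refine Finset.sum_subset hCU fun x hx hxC => ?_
        by_contra h
        exact hxC ((hCmem x).2 ⟨hx, h⟩)
      have s1 : ∑ x ∈ C, f x • x = 0 := by
        rw [← f1]
        refine Finset.sum_subset hCU fun x hx hxC => ?_
        have : f x = 0 := by
          by_contra h
          exact hxC ((hCmem x).2 ⟨hx, h⟩)
        rw [this, zero_smul]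
      exact hfq ((indep_iff C).1 hI f s0 s1 q hqC)
    · intro x hx
      rw [indep_iff]
      intro e e0 e1
      let e' : (Fin m → ℝ) → ℝ := fun y => if y ∈ C.erase x then e y else 0
      have hsub : C.erase x ⊆ U := (Finset.erase_subset _ _).trans hCU
      have s0 : ∑ y ∈ U, e' y = 0 := by
        simp only [e']
        rw [Finset.sum_ite_mem, Finset.inter_eq_right.2 hsub]; exact e0
      have s1 : ∑ y ∈ U, e' y • y = 0 := by
        simp only [e', ite_smul, zero_smul]
        rw [Finset.sum_ite_mem, Finset.inter_eq_right.2 hsub]; exact e1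
      have hu := huniq e' s0 s1
      have hx' : e' x = 0 := by simp [e']
      have h3 : e' q * f x = 0 := by rw [← hu x (hCU hx), hx', zero_mul]
      have hq0 : e' q = 0 := (mul_eq_zero.1 h3).resolve_right ((hCmem x).1 hx).2
      intro y hy
      have h4 := hu y (hsub hy)
      rw [hq0, zero_mul] at h4
      have h5 : e' y = 0 := (mul_eq_zero.1 h4).resolve_right hfq
      simp only [e', if_pos hy] at h5
      exact h5
  obtain ⟨A, B, hAB, hdis, hcard, hsum⟩ := hbal C (hCU.trans hUS) hCirc
  have hAU : A ⊆ U := (Finset.subset_union_left.trans hAB.le).trans hCU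
  have hBU : B ⊆ U := (Finset.subset_union_right.trans hAB.le).trans hCU
  let e : (Fin m → ℝ) → ℝ := fun x => (if x ∈ A then 1 else 0) - (if x ∈ B then 1 else 0)
  have e0 : ∑ x ∈ U, e x = 0 := by
    simp only [e]
    rw [Finset.sum_sub_distrib, Finset.sum_ite_mem, Finset.sum_ite_mem,
      Finset.inter_eq_right.2 hAU, Finset.inter_eq_right.2 hBU]
    simp [hcard]
  have e1 : ∑ x ∈ U, e x • x = 0 := by
    simp only [e, sub_smul, ite_smul, one_smul, zero_smul]
    rw [Finset.sum_sub_distrib, Finset.sum_ite_mem, Finset.sum_ite_mem,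
      Finset.inter_eq_right.2 hAU, Finset.inter_eq_right.2 hBU]
    exact sub_eq_zero.2 hsum
  have hu := huniq e e0 e1 p hpU
  have hval : ∀ x ∈ C, e x = 1 ∨ e x = -1 := by
    intro x hx
    rw [← hAB, Finset.mem_union] at hx
    by_cases hA : x ∈ A
    · have hB : x ∉ B := Finset.disjoint_left.1 hdis hA
      left; simp [e, hA, hB]
    · have hB : x ∈ B := hx.resolve_left hA
      right; simp [e, hA, hB]
  have hfun := dep_fun f0 f1 l c
  rw [hU, Finset.sum_insert hqpT, Finset.sum_insert hpT,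
    Finset.sum_eq_zero (s := T) (fun x hx => by rw [hl x hx]; ring), add_zero] at hfun
  have hcase : f q = f p ∨ f q = - f p := by
    rcases hval p hpC with h1 | h1 <;> rcases hval q hqC with h2 | h2 <;> rw [h1, h2] at hu
    · left; linarith
    · right; linarith
    · right; linarith
    · left; linarith
  rcases hcase with h | h
  · exfalso
    rw [h, ← mul_add] at hfun
    have h3 : l q - c + (l p - c) = 0 := (mul_eq_zero.1 hfun).resolve_left hfp
    have h4 : l q - c = -(l p - c) := by linarith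
    rw [h4] at hside
    nlinarith [sq_nonneg (l p - c)]
  · rw [h] at hfun
    have h3 : f p * ((l p - c) - (l q - c)) = 0 := by linarith
    have h4 := (mul_eq_zero.1 h3).resolve_left hfp
    linarith

end Pool.Agent.H314.AH
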