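import Mathlib
import Pool.Agent.H314.AH.Main

set_option autoImplicit false

namespace Pool.Agent.H314.AH

open Classical Finset

variable {m : ℕ}

/-- homogenisation -/
def hom (x : Fin m → ℝ) : (Fin m → ℝ) × ℝ := (x, 1)

theorem linIndep_iff (C : Finset (Fin m → ℝ)) : LinearIndepOn ℝ (hom (m := m)) ↑C ↔ Indep C := by
  rw [linearIndepOn_finset_iff, indep_iff]
  have key : ∀ w : (Fin m → ℝ) → ℝ, ∑ x ∈ C, w x • hom x = (∑ x ∈ C, w x • x, ∑ x ∈ C, w x) := by
    intro w
    apply Prod.ext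
    · rw [Prod.fst_sum]; simp [hom]
    · rw [Prod.snd_sum]; simp [hom]
  constructor
  · intro h w h0 h1
    exact h w (by rw [key, h0, h1]; rfl)
  · intro h w hw
    rw [key] at hw
    exact h w (congrArg Prod.snd hw) (congrArg Prod.fst hw)

theorem span_hom {S : Finset (Fin m → ℝ)} (hm : 1 ≤ m) (hS : Spans S) :
    Submodule.span ℝ (hom '' (S : Set (Fin m → ℝ))) = ⊤ := by
  by_contra hne
  obtain ⟨φ, hφ0, hφ⟩ := Submodule.exists_le_ker_of_lt_top _ (lt_top_iff_ne_top.2 hne)
  let l : (Fin m → ℝ) →ₗ[ℝ] ℝ := φ.comp (LinearMap.inl ℝ (Fin m → ℝ) ℝ)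
  have hlin : ∀ x r, φ (x, r) = l x + r * φ (0, 1) := by
    intro x r
    have e : ((x, r) : (Fin m → ℝ) × ℝ) = (x, 0) + r • ((0 : Fin m → ℝ), (1 : ℝ)) := by
      apply Prod.ext <;> simp
    rw [e, map_add, map_smul]
    rfl
  have hz : ∀ s ∈ S, l s = -φ (0, 1) := by
    intro s hs
    have h1 : hom s ∈ LinearMap.ker φ := hφ (Submodule.subset_span ⟨s, hs, rfl⟩)
    have h2 : φ (s, 1) = 0 := h1
    rw [hlin] at h2
    linarith
  have hl0 : l = 0 := by
    by_contra hl
    obtain ⟨s, hs, hne'⟩ := hS l (-φ (0, 1)) hl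
    exact hne' (hz s hs)
  -- S is nonempty
  have hne2 : S.Nonempty := by
    have : Nonempty (Fin m) := ⟨⟨0, hm⟩⟩
    let i : Fin m := ⟨0, hm⟩
    have hp : (LinearMap.proj i : (Fin m → ℝ) →ₗ[ℝ] ℝ) ≠ 0 := by
      intro h
      have := congrArg (fun g : (Fin m → ℝ) →ₗ[ℝ] ℝ => g (fun _ => 1)) h
      simp at this
    obtain ⟨s, hs, _⟩ := hS _ 0 hp
    exact ⟨s, hs⟩
  obtain ⟨s, hs⟩ := hne2
  have h01 : φ (0, 1) = 0 := by
    have := hz s hs
    rw [hl0] at this
    simpa using this.symm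
  apply hφ0
  apply LinearMap.ext
  rintro ⟨x, r⟩
  rw [hlin, hl0, h01]
  simp

theorem pair {S : Finset (Fin m → ℝ)} (hm : 1 ≤ m) (hS : Spans S)
    (hadm : ∀ (l : (Fin m → ℝ) →ₗ[ℝ] ℝ) (c : ℝ), Determined S l c →
      ((S.filter fun s => c < l s).image l).card ≤ 1)
    {C : Finset (Fin m → ℝ)} (hCS : C ⊆ S) (hC : IsCircuit C) {f : (Fin m → ℝ) → ℝ}
    (f0 : ∑ x ∈ C, f x = 0) (f1 : ∑ x ∈ C, f x • x = 0) {i j : Fin m → ℝ} (hi : i ∈ C)
    (hj : j ∈ C) (hij : f i * f j < 0) : f i + f j = 0 := by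
  have hne : i ≠ j := by
    rintro rfl
    nlinarith [sq_nonneg (f i)]
  obtain ⟨b, hbS, hsb, hspan, hb⟩ := exists_linearIndepOn_extension (K := ℝ) (v := hom (m := m))
    (s := (↑(C.erase i) : Set (Fin m → ℝ))) (t := (↑S : Set (Fin m → ℝ)))
    ((linIndep_iff _).2 (hC.2 i hi))
    (by exact_mod_cast (Finset.erase_subset i C).trans hCS)
  lift b to Finset (Fin m → ℝ) using S.finite_toSet.subset hbS
  have hbS' : b ⊆ S := by exact_mod_cast hbS
  have hsb' : C.erase i ⊆ b := by exact_mod_cast hsb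
  have hib : i ∉ b := by
    intro hib
    apply hC.1
    rw [← linIndep_iff]
    refine hb.mono ?_
    have : C ⊆ b := by
      intro x hx
      by_cases h : x = i
      · rw [h]; exact hib
      · exact hsb' (Finset.mem_erase.2 ⟨h, hx⟩)
    exact_mod_cast this
  have hjb : j ∈ b := hsb' (Finset.mem_erase.2 ⟨hne.symm, hj⟩)
  have htop : ⊤ ≤ Submodule.span ℝ (Set.range fun x : (↑b : Set (Fin m → ℝ)) => hom (x : Fin m → ℝ)) := by
    rw [← span_hom hm hS, Submodule.span_le]
    refine hspan.trans ?_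
    rw [Set.image_eq_range]
  let bs := Module.Basis.mk (v := fun x : (↑b : Set (Fin m → ℝ)) => hom (x : Fin m → ℝ)) hb htop
  have hbc : b.card = m + 1 := by
    have h1 := Module.finrank_eq_card_basis bs
    rw [Module.finrank_prod, Module.finrank_fin_fun, Module.finrank_self] at h1
    rw [h1]
    simp
  let φ : (Fin m → ℝ) × ℝ →ₗ[ℝ] ℝ := bs.coord ⟨j, hjb⟩
  have hφj : φ (hom j) = 1 := by
    have h1 : bs ⟨j, hjb⟩ = hom j := by simp [bs]
    rw [← h1]
    simp [φ]
  have hφt : ∀ t ∈ b.erase j, φ (hom t) = 0 := by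
    intro t ht
    have htb : t ∈ b := Finset.mem_of_mem_erase ht
    have h1 : bs ⟨t, htb⟩ = hom t := by simp [bs]
    have hne' : (⟨t, htb⟩ : (↑b : Set (Fin m → ℝ))) ≠ ⟨j, hjb⟩ := by
      intro h
      exact Finset.ne_of_mem_erase ht (congrArg Subtype.val h)
    rw [← h1]
    simp only [φ, Module.Basis.coord_apply, Module.Basis.repr_self]
    exact Finsupp.single_eq_of_ne' hne'
  let l : (Fin m → ℝ) →ₗ[ℝ] ℝ := φ.comp (LinearMap.inl ℝ (Fin m → ℝ) ℝ)
  obtain ⟨c, hc⟩ : ∃ c : ℝ, c = -φ (0, 1) := ⟨_, rfl⟩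
  have hlin : ∀ x, l x - c = φ (hom x) := by
    intro x
    have e : hom x = ((x, 0) : (Fin m → ℝ) × ℝ) + ((0 : Fin m → ℝ), (1 : ℝ)) := by
      apply Prod.ext <;> simp [hom]
    rw [e, map_add, hc, sub_neg_eq_add]
    rfl
  have hlj : l j - c = 1 := by rw [hlin, hφj]
  have hlt : ∀ t ∈ b.erase j, l t = c := by
    intro t ht
    have := hlin t
    rw [hφt t ht] at this
    linarith
  have hTc : (b.erase j).card = m := by rw [Finset.card_erase_of_mem hjb, hbc]; rfl
  have hl0 : l ≠ 0 := by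
    intro h
    obtain ⟨t, ht⟩ : (b.erase j).Nonempty := by
      rw [← Finset.card_pos, hTc]; exact hm
    have h1 := hlt t ht
    rw [h] at h1 hlj
    simp only [LinearMap.zero_apply] at h1 hlj
    rw [← h1] at hlj
    norm_num at hlj
  have hdet : Determined S l c := by
    refine ⟨hl0, b.erase j, (Finset.erase_subset _ _).trans hbS', hTc, ?_, hlt⟩
    rw [← linIndep_iff]
    refine hb.mono ?_
    exact_mod_cast Finset.erase_subset j b
  have hfun := dep_fun f0 f1 l c
  rw [← Finset.add_sum_erase C _ hi, ← Finset.add_sum_erase (C.erase i) _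
    (Finset.mem_erase.2 ⟨hne.symm, hj⟩), Finset.sum_eq_zero (s := (C.erase i).erase j)
    (fun x hx => by
      rw [hlt x (Finset.mem_erase.2 ⟨Finset.ne_of_mem_erase hx,
        hsb' (Finset.mem_of_mem_erase hx)⟩)]; ring), add_zero, hlj, mul_one] at hfun
  have hfi : f i ≠ 0 := by
    intro h; rw [h, zero_mul] at hij; exact lt_irrefl _ hij
  have hlipos : 0 < l i - c := by
    by_contra hneg
    push Not at hneg
    -- f i * (l i - c) = - f j ; multiply by f i
    have h1 : f i * f j = -(f i ^ 2 * (l i - c)) := by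
      have : f j = -(f i * (l i - c)) := by linarith
      rw [this]; ring
    have h2 : 0 ≤ -(f i ^ 2 * (l i - c)) := by
      have := mul_nonneg (sq_nonneg (f i)) (neg_nonneg.2 hneg)
      linarith
    linarith
  have hone := hadm l c hdet
  have hmem : ∀ x ∈ S, 0 < l x - c → l x ∈ (S.filter fun s => c < l s).image l := by
    intro x hx hpos
    exact Finset.mem_image_of_mem _ (Finset.mem_filter.2 ⟨hx, by linarith⟩)
  have heq := Finset.card_le_one.1 hone _ (hmem i (hCS hi) hlipos) _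
    (hmem j (hCS hj) (by rw [hlj]; norm_num))
  have h3 : l i - c = 1 := by rw [heq, hlj]
  rw [h3, mul_one] at hfun
  exact hfun

theorem balanced_of {S : Finset (Fin m → ℝ)} (hm : 1 ≤ m) (hS : Spans S)
    (hadm : ∀ (l : (Fin m → ℝ) →ₗ[ℝ] ℝ) (c : ℝ), Determined S l c →
      ((S.filter fun s => c < l s).image l).card ≤ 1)
    {C : Finset (Fin m → ℝ)} (hCS : C ⊆ S) (hC : IsCircuit C) : Balanced C := by
  have hdep := hC.1
  rw [indep_iff] at hdep
  push Not at hdep
  obtain ⟨f, f0, f1, x0, hx0, hfx0⟩ := hdep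
  have hne : ∀ x ∈ C, f x ≠ 0 := by
    intro x hx hfx
    have h1 := (indep_iff _).1 (hC.2 x hx) f
      (by rw [← Finset.add_sum_erase C _ hx, hfx, zero_add] at f0; exact f0)
      (by rw [← Finset.add_sum_erase C _ hx, hfx, zero_smul, zero_add] at f1; exact f1)
    by_cases h : x0 = x
    · rw [h] at hfx0; exact hfx0 hfx
    · exact hfx0 (h1 x0 (Finset.mem_erase.2 ⟨h, hx0⟩))
  have hpair : ∀ i ∈ C, ∀ j ∈ C, f i * f j < 0 → f i + f j = 0 := fun i hi j hj hij =>
    pair hm hS hadm hCS hC f0 f1 hi hj hij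
  -- there are a positive and a negative value
  obtain ⟨a0, ha0, hfa0⟩ : ∃ a ∈ C, 0 < f a :=
    Finset.exists_pos_of_sum_zero_of_exists_nonzero f f0 ⟨x0, hx0, hfx0⟩
  obtain ⟨b0, hb0, hfb0⟩ : ∃ a ∈ C, 0 < -f a := by
    refine Finset.exists_pos_of_sum_zero_of_exists_nonzero (fun x => -f x) ?_
      ⟨x0, hx0, neg_ne_zero.2 hfx0⟩
    rw [Finset.sum_neg_distrib, f0, neg_zero]
  obtain ⟨v, hv⟩ : ∃ v, v = f a0 := ⟨_, rfl⟩
  have hv0 : 0 < v := by rw [hv]; exact hfa0
  have hnegv : ∀ b ∈ C, f b < 0 → f b = -v := by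
    intro b hb hfb
    have := hpair a0 ha0 b hb (mul_neg_of_pos_of_neg hfa0 hfb)
    rw [hv]; linarith
  have hposv : ∀ a ∈ C, 0 < f a → f a = v := by
    intro a ha hfa
    have hb0' : f b0 < 0 := by linarith
    have h1 := hpair a ha b0 hb0 (mul_neg_of_pos_of_neg hfa hb0')
    have h2 := hnegv b0 hb0 hb0'
    linarith
  have hval : ∀ x ∈ C, f x = v * ((if 0 < f x then 1 else 0) - (if ¬ 0 < f x then 1 else 0)) := by
    intro x hx
    by_cases h : 0 < f x
    · rw [if_pos h, if_neg (not_not.2 h), sub_zero, mul_one]; exact hposv x hx h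
    · rw [if_neg h, if_pos h]
      have h' : f x < 0 := lt_of_le_of_ne (not_lt.1 h) (hne x hx)
      rw [hnegv x hx h']; ring
  refine ⟨C.filter (fun x => 0 < f x), C.filter (fun x => ¬ 0 < f x),
    Finset.filter_union_filter_not_eq _ _, Finset.disjoint_filter_filter_not _ _ _, ?_, ?_⟩
  · have h1 : v * (((C.filter (fun x => 0 < f x)).card : ℝ) -
        ((C.filter (fun x => ¬ 0 < f x)).card : ℝ)) = 0 := by
      have h0 := f0
      rw [Finset.sum_congr rfl hval, ← Finset.mul_sum, Finset.sum_sub_distrib,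
        Finset.sum_boole, Finset.sum_boole] at h0
      exact h0
    have h2 := (mul_eq_zero.1 h1).resolve_left hv0.ne'
    have h3 := sub_eq_zero.1 h2
    exact_mod_cast h3
  · have h1 : v • (∑ x ∈ C.filter (fun x => 0 < f x), x - ∑ x ∈ C.filter (fun x => ¬ 0 < f x), x) =
        0 := by
      rw [← f1, Finset.sum_filter, Finset.sum_filter, ← Finset.sum_sub_distrib, Finset.smul_sum]
      refine Finset.sum_congr rfl fun x hx => ?_
      by_cases h : 0 < f x
      · rw [if_pos h, if_neg (not_not.2 h), sub_zero, hposv x hx h]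
      · have h' : f x < 0 := lt_of_le_of_ne (not_lt.1 h) (hne x hx)
        rw [if_neg h, if_pos h, hnegv x hx h']
        simp
    have h2 := (smul_eq_zero.1 h1).resolve_left hv0.ne'
    exact sub_eq_zero.1 h2

theorem main (hm : 1 ≤ m) (S : Finset (Fin m → ℝ)) (hS : Spans S) (hcard : S.card ≤ 2 * m) :
    Admissible S ↔ ∀ C ⊆ S, IsCircuit C → Balanced C := by
  constructor
  · intro hadm C hCS hC
    refine balanced_of hm hS (fun l c hdet => ((hadm l c hdet).1).trans ?_) hCS hC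
    have h1 : (S.card - 1) / m < 2 := by
      rw [Nat.div_lt_iff_lt_mul (by omega)]
      omega
    omega
  · intro hbal l c hdet
    obtain ⟨hl0, T, hTS, hTc, hT, hl⟩ := hdet
    have hge : ∀ p ∈ S, l p ≠ c → 1 ≤ (S.card - 1) / m := by
      intro p hp hpc
      have hpT : p ∉ T := fun h => hpc (hl p h)
      have h1 : (insert p T).card ≤ S.card := Finset.card_le_card (Finset.insert_subset hp hTS)
      rw [Finset.card_insert_of_notMem hpT, hTc] at h1
      rw [Nat.le_div_iff_mul_le (by omega)]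
      omega
    constructor
    · rcases (S.filter fun s => c < l s).eq_empty_or_nonempty with h | ⟨p, hp⟩
      · rw [h]; simp
      · rw [Finset.mem_filter] at hp
        refine le_trans (Finset.card_le_one.2 ?_) (hge p hp.1 (ne_of_gt hp.2))
        intro u hu w hw
        obtain ⟨x, hx, rfl⟩ := Finset.mem_image.1 hu
        obtain ⟨y, hy, rfl⟩ := Finset.mem_image.1 hw
        rw [Finset.mem_filter] at hx hy
        exact same_value hbal hTS hTc hT hl hx.1 hy.1
          (mul_pos (sub_pos.2 hx.2) (sub_pos.2 hy.2))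
    · rcases (S.filter fun s => l s < c).eq_empty_or_nonempty with h | ⟨p, hp⟩
      · rw [h]; simp
      · rw [Finset.mem_filter] at hp
        refine le_trans (Finset.card_le_one.2 ?_) (hge p hp.1 (ne_of_lt hp.2))
        intro u hu w hw
        obtain ⟨x, hx, rfl⟩ := Finset.mem_image.1 hu
        obtain ⟨y, hy, rfl⟩ := Finset.mem_image.1 hw
        rw [Finset.mem_filter] at hx hy
        exact same_value hbal hTS hTc hT hl hx.1 hy.1
          (mul_pos_of_neg_of_neg (sub_neg.2 hx.2) (sub_neg.2 hy.2))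

end Pool.Agent.H314.AH
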